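import Pool.Agent.LibCryst.Final

namespace Pool.Agent.Results.MP_9a6fac_co.NotSameLaw

open Pool.Agent.LibCryst Filter

/-- The crystallization process stops almost surely; with probability bounded below it produces
at least `√n / 30000` short chords, whereas a uniformly random crystallized diagram has `o(√n)`
short chords in probability. Consequently no normalisation `(a_n, b_n)` for which `Y_n` is
asymptotically standard normal makes `X_n` asymptotically standard normal: the two numbers of
short chords do not have the same asymptotic distribution. -/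
theorem result :
    (∀ n, PX n Set.univ = 1) ∧
    (∀ᶠ n : ℕ in atTop, 1 / 384 ≤ PX n {k | 1 / 30000 * Real.sqrt (n : ℝ) ≤ (k : ℝ)}) ∧
    (∀ ε : ℝ, 0 < ε →
      Tendsto (fun n : ℕ => PY n {k | ε * Real.sqrt (n : ℝ) ≤ (k : ℝ)}) atTop (nhds 0)) ∧
    (∀ a b : ℕ → ℝ, (∀ n, 0 < b n) → NormalLimit PY a b → ¬ NormalLimit PX a b) := main

end Pool.Agent.Results.MP_9a6fac_co.NotSameLaw
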